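import Pool.Agent.H.MP_9d3c8a_al.Main

set_option autoImplicit false

namespace Pool.Agent.H.MP_c978f4_al

open MvPolynomial Pool.Agent.H.MP_9d3c8a_al

variable {F : Type} [Field F] [CharZero F]

def Low (l k : ℕ) (p : P F) : Prop := ∀ α ∈ p.support, α l < k

omit [CharZero F] in
theorem low_zero {l : ℕ} {p : P F} : Low l 0 p ↔ p = 0 := by
  constructor
  · intro h
    rw [← support_eq_empty, Finset.eq_empty_iff_forall_notMem]
    intro α hα
    exact absurd (h α hα) (by simp)
  · rintro rfl α hα
    simp at hα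

theorem low_succ {l k : ℕ} {p : P F} : Low l (k + 1) p ↔ Low l k (pd l p) := by
  constructor
  · intro h α hα
    rw [mem_support_iff, coeff_pderiv] at hα
    have := h _ (mem_support_iff.mpr (left_ne_zero_of_mul hα))
    simp at this
    omega
  · intro h α hα
    by_cases h0 : α l = 0
    · omega
    · have h2 := Finsupp.sub_add_single_one_cancel h0
      have h3 := h (α - Finsupp.single l 1) (by
        rw [mem_support_iff, coeff_pderiv, h2]
        exact mul_ne_zero (mem_support_iff.mp hα) (Nat.cast_add_one_ne_zero _))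
      simp at h3
      omega

theorem low_der {l : ℕ} {d : Dr F} (hd : ⁅(pd l : Dr F), d⁆ = 0) (k : ℕ) (p : P F)
    (h : Low l k p) : Low l k (d p) := by
  induction k generalizing p with
  | zero => rw [low_zero] at *; rw [h, map_zero]
  | succ k ih =>
    rw [low_succ] at *
    have := congrArg (fun e : Dr F => e p) hd
    simp only [Derivation.commutator_apply, Derivation.zero_apply, sub_eq_zero] at this
    rw [this]
    exact ih _ h

theorem integ (k : ℕ) (p : P F) : ∃ q, pd k q = p := by
  induction p using MvPolynomial.induction_on' with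
  | monomial α c =>
    refine ⟨monomial (α + Finsupp.single k 1) (c / ((α k : F) + 1)), ?_⟩
    have : (α k : F) + 1 ≠ 0 := Nat.cast_add_one_ne_zero _
    rw [pderiv_monomial, add_tsub_cancel_right]
    congr 1
    simp
    field_simp
  | add p q hp hq =>
    obtain ⟨p', rfl⟩ := hp
    obtain ⟨q', rfl⟩ := hq
    exact ⟨p' + q', map_add _ _ _⟩

theorem br_surj (k : ℕ) (E : Dr F) : ∃ d : Dr F, ⁅d, (pd k : Dr F)⁆ = E := by
  choose q hq using fun l => integ k (E (X l))
  refine ⟨mkDerivation F (fun l => - q l), ?_⟩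
  apply derivation_ext
  intro l
  rw [Derivation.commutator_apply, pd_X, ite_der, mkDerivation_X, map_neg, hq]
  simp

theorem top_ne (l : ℕ) (E d : Dr F) (c : ℕ → F) (N : ℕ → ℕ)
    (hd : ∀ i, d (X i) = c i • X i ^ (N i + 2)) (hN : Low l (N l + 1) (E (X l)))
    (hE : E (X l) ≠ 0) (hc : c l ≠ 0) : ⁅d, E⁆ ≠ 0 := by
  intro h
  set g := E (X l) with hg
  let d' : Dr F := d - (c l • (X l : P F) ^ (N l + 2)) • pd l
  have h1 : ⁅(pd l : Dr F), d'⁆ = 0 := by
    apply derivation_ext
    intro i
    rw [Derivation.commutator_apply, pd_X, ite_der, sub_zero]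
    simp only [d', Derivation.sub_apply, Derivation.smul_apply, hd, pd_X]
    split_ifs with hi
    · subst hi; simp
    · simp [Derivation.leibniz_pow, pderiv_X_of_ne (Ne.symm hi)]
  have h2 := low_der h1 _ _ hN
  have h3 : d g = E (d (X l)) := by
    have := congrArg (fun e : Dr F => e (X l)) h
    simpa [Derivation.commutator_apply, sub_eq_zero] using this
  have h4 : d' g = X l ^ (N l + 1) * (c l • (((N l + 2 : ℕ) : P F) * g - X l * pd l g)) := by
    have e0 : d' g = d g - (c l • (X l : P F) ^ (N l + 2)) * pd l g := rfl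
    rw [e0, h3, hd, Derivation.map_smul, Derivation.leibniz_pow, ← hg,
      show N l + 2 - 1 = N l + 1 from rfl]
    simp only [smul_eq_mul, smul_eq_C_mul, nsmul_eq_mul]
    ring
  have h5 : c l • (((N l + 2 : ℕ) : P F) * g - X l * pd l g) ≠ 0 := by
    refine smul_ne_zero hc ?_
    obtain ⟨α, hα⟩ := ne_zero_iff.mp hE
    intro h0
    have e := congrArg (coeff α) h0
    have e1 : coeff α (X l * pd l g) = (α l : F) * coeff α g := by
      conv_lhs => rw [g.as_sum, map_sum, Finset.mul_sum]
      simp only [X_mul_pderiv_monomial, coeff_sum, coeff_smul, coeff_monomial]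
      rw [Finset.sum_eq_single α]
      · simp
      · intro b _ hb; simp [hb]
      · intro hn; exact absurd (mem_support_iff.mpr hα) hn
    rw [coeff_sub, e1, ← map_natCast (C : F →+* P F), coeff_C_mul, coeff_zero, ← sub_mul] at e
    have e2 := (mul_eq_zero.mp e).resolve_right hα
    have e3 := hN α (mem_support_iff.mpr hα)
    rw [sub_eq_zero, Nat.cast_inj] at e2
    omega
  obtain ⟨β, hβ⟩ := ne_zero_iff.mp h5
  have h6 := h2 (Finsupp.single l (N l + 1) + β) (by
    rw [mem_support_iff, h4, X_pow_eq_monomial, coeff_monomial_mul, one_mul]; exact hβ)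
  simp at h6
  omega

theorem no_inj (Φ : (ℕ → F) →ₗ[F] P F) : ¬ Function.Injective Φ := by
  intro h
  have h1 := LinearMap.rank_le_of_injective Φ h
  rw [rank_fun_infinite, MvPolynomial.rank_eq, Cardinal.mk_eq_aleph0 (ℕ →₀ ℕ)] at h1
  have h2 : Cardinal.mk (ℕ → F) = Cardinal.mk F ^ Cardinal.aleph0 := by simp
  rw [h2] at h1
  have h3 : (2 : Cardinal) ^ Cardinal.aleph0 ≤ Cardinal.mk F ^ Cardinal.aleph0 :=
    Cardinal.power_le_power_right (Cardinal.two_le_iff.mpr ⟨0, 1, zero_ne_one⟩)
  exact absurd (h3.trans h1) (not_le.mpr (Cardinal.cantor _))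

structure Bu (θ : Dr F → Dr F) : Prop where
  surj : ∀ e, ∃ d, θ d = e
  inj : ∀ d e, θ d = θ e → d = e
  add : ∀ d e, θ (d + e) = θ d + θ e
  br : ∀ d e, θ ⁅d, e⁆ = ⁅θ d, θ e⁆
  smul : ∀ (c : F) d, θ (c • d) = c • θ d

namespace Bu
variable {θ : Dr F → Dr F} (H : Bu θ)
include H

omit [CharZero F] in
theorem zero : θ 0 = 0 := by
  have := H.smul 0 0
  simpa using this

omit [CharZero F] in
theorem D_ne (k : ℕ) : θ (pd k) ≠ 0 := by
  intro h
  have := H.inj _ _ (h.trans H.zero.symm)
  have h2 := congrArg (fun e : Dr F => e (X k)) this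
  simp at h2

omit [CharZero F] in
theorem D_comm (k l : ℕ) : ⁅θ (pd k), θ (pd l)⁆ = 0 := by
  rw [← H.br _ _, pd_comm, H.zero]

theorem lemA {f : P F} (hf : ∀ k, θ (pd k) f = 0) : ∃ c, f = C c := by
  choose T hT using fun k => H.surj (f • θ (pd k))
  have h1 : ∀ k l, ⁅(pd l : Dr F), T k⁆ = 0 := by
    intro k l
    apply H.inj _ _
    rw [H.br _ _, hT, br_smul, hf, H.D_comm, H.zero]; simp
  choose t ht using fun k l => V_const (h1 k) l
  have h2 : ∀ a k, a ≠ k → θ (hh a) f • θ (pd k) = (- t k a) • θ (pd a) := by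
    intro a k hak
    have e1 : ⁅(hh a : Dr F), T k⁆ = (- t k a) • pd a := by
      apply derivation_ext
      intro l
      rw [V_weight (h1 k), Derivation.smul_apply, pd_X]
      split_ifs with h
      · subst h; rw [ht]; simp [smul_eq_C_mul]
      · simp
    have e2 := H.br (hh a) (T k)
    rw [e1, H.smul _ _, hT, br_smul, ← H.br _ _, hh_pd, if_neg hak,
      H.zero] at e2
    rw [e2]; simp
  have h3 : ∀ a, a ≠ 0 → t 0 a = 0 := by
    intro a ha
    have e1 := h2 a 0 ha
    have e2 := h2 a (a + 1) (by omega)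
    have e3 : θ (hh a) f • (t (a + 1) a • θ (pd 0) - t 0 a • θ (pd (a + 1))) = 0 := by
      rw [smul_sub, smul_comm, e1, smul_comm, smul_comm (θ (hh a) f), e2, smul_smul, smul_smul]
      rw [← sub_smul]
      have : -t 0 a * t (a + 1) a - t 0 a * -t (a + 1) a = 0 := by ring
      rw [this, zero_smul]
    rcases smul_eq_zero' e3 with h | h
    · rw [h, zero_smul] at e1
      have := (smul_eq_zero.mp e1.symm).resolve_right (H.D_ne a)
      simpa using this
    · rw [sub_eq_zero, ← H.smul _ _, ← H.smul _ _] at h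
      have := H.inj _ _ h
      have h4 := congrArg (fun e : Dr F => e (X (a + 1))) this
      simpa using h4.symm
  have h4 : T 0 = t 0 0 • pd 0 := by
    apply derivation_ext
    intro l
    rw [ht, Derivation.smul_apply, pd_X]
    split_ifs with h
    · subst h; simp [smul_eq_C_mul]
    · rw [h3 l (Ne.symm h)]; simp
  have h5 := hT 0
  rw [h4, H.smul _ _, ← csmul_eq, ← sub_eq_zero, ← psub_smul] at h5
  have := (smul_eq_zero' h5).resolve_right (H.D_ne 0)
  exact ⟨t 0 0, (sub_eq_zero.mp this).symm⟩

theorem finW {E : Dr F} {f : P F} (h : θ E = f • θ (pd 0)) : W E := by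
  by_contra hW
  have hS : ({i : ℕ | E (X i) ≠ 0} \ {0}).Infinite :=
    Set.Infinite.sdiff hW (Set.finite_singleton 0)
  let e : ℕ → ℕ := fun j => hS.natEmbedding _ j
  have he : Function.Injective e := fun a b hab =>
    (hS.natEmbedding _).injective (Subtype.ext hab)
  have he1 : ∀ j, E (X (e j)) ≠ 0 := fun j => (hS.natEmbedding _ j).2.1
  have he0 : ∀ j, e j ≠ 0 := fun j => (hS.natEmbedding _ j).2.2
  let N : ℕ → ℕ := fun l => degreeOf l (E (X l))
  let L : (ℕ → F) →ₗ[F] (ℕ → F) := Function.ExtendByZero.linearMap F e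
  have hL : ∀ c j, L c (e j) = c j := fun c j => he.extend_apply c 0 j
  have hL0 : ∀ c, L c 0 = 0 := fun c =>
    Function.extend_apply' c (0 : ℕ → F) 0 (by rintro ⟨j, hj⟩; exact he0 j hj)
  let dd : (ℕ → F) → Dr F := fun c => mkDerivation F (fun i => L c i • (X i : P F) ^ (N i + 2))
  have hdd : ∀ c i, dd c (X i) = L c i • (X i : P F) ^ (N i + 2) := fun c i => mkDerivation_X _ _ _
  let Φ : (ℕ → F) →ₗ[F] P F :=
    { toFun := fun c => θ (dd c) f
      map_add' := by
        intro a b
        have : dd (a + b) = dd a + dd b := by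
          apply derivation_ext
          intro i
          rw [Derivation.add_apply, hdd, hdd, hdd, map_add, Pi.add_apply, add_smul]
        rw [this, H.add, Derivation.add_apply]
      map_smul' := by
        intro r a
        have : dd (r • a) = r • dd a := by
          apply derivation_ext
          intro i
          rw [Derivation.smul_apply, hdd, hdd, map_smul, Pi.smul_apply, smul_assoc]
        rw [this, H.smul, Derivation.smul_apply]
        rfl }
  apply no_inj Φ
  rw [injective_iff_map_eq_zero]
  intro c hc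
  have hc' : θ (dd c) f = 0 := hc
  have h1 : ⁅dd c, (pd 0 : Dr F)⁆ = 0 := by
    apply derivation_ext
    intro i
    rw [Derivation.commutator_apply, pd_X, ite_der, hdd]
    by_cases hi : i = 0
    · subst hi; simp [hL0]
    · simp [Derivation.leibniz_pow, pderiv_X_of_ne hi]
  have h2 : ⁅dd c, E⁆ = 0 := by
    apply H.inj
    rw [H.br, h, br_smul, hc', ← H.br, h1, H.zero]; simp
  funext j
  by_contra hj
  refine top_ne (e j) E (dd c) (L c) N (hdd c) ?_ (he1 j) (by rw [hL]; exact hj) h2
  intro α hα
  exact Nat.lt_succ_of_le (monomial_le_degreeOf _ hα)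

theorem lemB : ∃ (f : P F) (b : ℕ) (c : F), c ≠ 0 ∧ θ (pd b) f = C c ∧
    ∀ k, ∃ c', θ (pd k) f = C c' := by
  by_contra hc
  have h0 : ∀ f : P F, (∀ k, ∃ c', θ (pd k) f = C c') → ∃ c, f = C c := by
    intro f hf
    apply H.lemA
    intro k
    obtain ⟨c, hc'⟩ := hf k
    by_contra hne
    exact hc ⟨f, k, c, by rintro rfl; exact hne (by simpa using hc'), hc', hf⟩
  have step : ∀ (E : Dr F) (f : P F) (k : ℕ), θ E = f • θ (pd 0) →
      θ ⁅(pd k : Dr F), E⁆ = θ (pd k) f • θ (pd 0) := by
    intro E f k h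
    rw [H.br _ _, h, br_smul, H.D_comm]; simp
  have stepX : ∀ (E : Dr F) (k l : ℕ), ⁅(pd k : Dr F), E⁆ (X l) = pd k (E (X l)) := by
    intro E k l
    rw [Derivation.commutator_apply, pd_X, ite_der, sub_zero]
  have key : ∀ (d : ℕ) (E : Dr F) (f : P F), (∀ l, (E (X l)).totalDegree ≤ d) →
      θ E = f • θ (pd 0) → ∃ c, f = C c := by
    intro d
    induction d with
    | zero =>
      intro E f hd h
      apply H.lemA
      intro k
      have e1 : ⁅(pd k : Dr F), E⁆ = 0 := by
        apply derivation_ext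
        intro l
        rw [stepX, totalDegree_eq_zero_iff_eq_C.mp (Nat.le_zero.mp (hd l))]
        simp
      have e2 := step E f k h
      rw [e1, H.zero] at e2
      exact (smul_eq_zero' e2.symm).resolve_right (H.D_ne 0)
    | succ d ih =>
      intro E f hd h
      apply h0
      intro k
      exact ih _ _ (fun l => by rw [stepX]; exact deg_pd _ _ _ (hd l))
        (step E f k h)
  obtain ⟨E, h⟩ := H.surj ((X 0 : P F) • θ (pd 0))
  have hE := H.finW h
  obtain ⟨c, hc⟩ := key (hE.toFinset.sup (fun l => (E (X l)).totalDegree)) E (X 0) (by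
    intro l
    by_cases hl : E (X l) = 0
    · simp [hl]
    · exact Finset.le_sup (f := fun l => (E (X l)).totalDegree) (by simpa using hl)) h
  have := congrArg (fun p : P F => pd 0 p) hc
  simp at this

theorem lemC (i : ℕ) : ∃ y : P F, (∀ k, θ (pd k) y = if k = i then 1 else 0) ∧
    ∀ a, θ (hh a) y = if a = i then y else 0 := by
  obtain ⟨f, b, c, hc, hb, hf⟩ := H.lemB
  have one : ∀ (c : Prop) [Decidable c] (d : Dr F), W d →
      θ ((if c then (1 : P F) else 0) • d) = if c then θ d else 0 := by
    intro c _ d _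
    split_ifs
    · rw [one_smul]
    · rw [zero_smul, H.zero]
  have comm : ∀ (d e : Dr F) (p : P F), W d → W e → θ d (θ e p) = θ ⁅d, e⁆ p + θ e (θ d p) := by
    intro d e p hd he
    rw [H.br _ _, Derivation.commutator_apply]; ring
  obtain ⟨y0, hy0⟩ : ∃ y : P F, ∀ k, θ (pd k) y = if k = i then 1 else 0 := by
    refine ⟨c⁻¹ • θ ((X i : P F) • pd b) f, fun k => ?_⟩
    obtain ⟨c', hc'⟩ := hf k
    rw [Derivation.map_smul, comm _ _ _ (W_pd k) (W_smul _ (W_pd b)), br_pd, pd_X,
      one _ _ (W_pd b), hc', derivation_C]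
    split_ifs
    · rw [hb, add_zero, smul_eq_C_mul, ← C_mul, inv_mul_cancel₀ hc, C_1]
    · simp
  have hw : ∀ y : P F, (∀ k, θ (pd k) y = if k = i then 1 else 0) → ∀ a k,
      θ (pd k) (θ (hh a) y) = if k = a then (if a = i then 1 else 0) else 0 := by
    intro y hy a k
    rw [comm _ _ _ (W_pd k) (W_hh a), hy, ite_der, add_zero, hh, br_pd, pd_X, one _ _ (W_pd a)]
    split_ifs with h1 h2
    · rw [hy, if_pos h2]
    · rw [hy, if_neg h2]
    · simp
  obtain ⟨c0, hc0⟩ := H.lemA (f := θ (hh i) y0 - y0) (by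
    intro k; rw [map_sub, hw y0 hy0, hy0]; simp)
  have hy : ∀ k, θ (pd k) (y0 + C c0) = if k = i then 1 else 0 := by
    intro k; rw [map_add, hy0, derivation_C, add_zero]
  have hi : θ (hh i) (y0 + C c0) = y0 + C c0 := by
    rw [map_add, derivation_C, ← hc0]; ring
  refine ⟨y0 + C c0, hy, fun a => ?_⟩
  split_ifs with ha
  · rw [ha, hi]
  · obtain ⟨c1, hc1⟩ := H.lemA (f := θ (hh a) (y0 + C c0)) (by
      intro k; rw [hw _ hy, if_neg ha]; simp)
    have := comm _ _ (y0 + C c0) (W_hh i) (W_hh a)
    rw [hi, hc1, derivation_C, hh_hh, H.zero] at this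
    rw [hc1]; simpa using this.symm

theorem lemD (i : ℕ) (y : P F) (hy : ∀ k, θ (pd k) y = if k = i then 1 else 0)
    (hy' : ∀ a, θ (hh a) y = if a = i then y else 0) (E : Dr F) (hE : W E) :
    θ ((X i : P F) • E) = y • θ E := by
  refine W_ind (fun E => θ ((X i : P F) • E) = y • θ E) ?_ ?_ ?_ E hE
  · simp [H.zero]
  · intro d e hd he h1 h2
    rw [smul_add, H.add _ _, H.add _ _, h1, h2, smul_add]
  · intro α c j
    induction hn : α.sum (fun _ e => e) using Nat.strong_induction_on generalizing α c with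
    | _ n ih =>
    set m : Dr F := (monomial α c : P F) • pd j with hm
    obtain ⟨E', h⟩ := H.surj (y • θ m)
    have ih' : ∀ k, θ ((X i : P F) • ⁅(pd k : Dr F), m⁆) = y • θ ⁅(pd k : Dr F), m⁆ := by
      intro k
      rw [hm, br_pd, pderiv_monomial]
      by_cases hk : α k = 0
      · simp [hk, H.zero]
      · refine ih _ ?_ _ _ rfl
        rw [← hn]
        conv_rhs => rw [← Finsupp.sub_add_single_one_cancel hk]
        rw [Finsupp.sum_add_index' (by simp) (by simp)]
        simp
    have h1 : ∀ k, ⁅(pd k : Dr F), E' - (X i : P F) • m⁆ = 0 := by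
      intro k
      rw [br_sub, sub_eq_zero]
      apply H.inj _ _
      rw [H.br _ _, h, br_smul, br_smul,
        H.add _ _, ih', hy, pd_X,
        H.br _ _]
      split_ifs
      · rw [one_smul, one_smul]
      · rw [zero_smul, zero_smul, H.zero]
    have hwm : ∀ a, ⁅(hh a : Dr F), m⁆ = ((α a : F) - if a = j then 1 else 0) • m := by
      intro a
      rw [hm, br_smul, hh_pd, hh, Derivation.smul_apply, smul_eq_mul, X_mul_pderiv_monomial,
        csub_smul, smul_assoc, Nat.cast_smul_eq_nsmul]
      split_ifs <;> simp [sub_eq_add_neg]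
    have h2 : ∀ a, ⁅(hh a : Dr F), E' - (X i : P F) • m⁆ =
        (((α a : F) - if a = j then 1 else 0) + if a = i then 1 else 0) •
          (E' - (X i : P F) • m) := by
      intro a
      rw [br_sub, smul_sub]
      congr 1
      · apply H.inj _ _
        rw [H.br _ _, H.smul _ _, h, br_smul, ← H.br _ _, hwm,
          H.smul _ _, hy', add_smul, smul_comm y, add_comm]
        split_ifs <;> simp
      · rw [br_smul, hwm, hh_X, add_smul, smul_comm (X i : P F), add_comm]
        split_ifs <;> simp
    have h3 : E' - (X i : P F) • m = 0 := by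
      set G := E' - (X i : P F) • m
      apply derivation_ext
      intro l
      by_contra hl
      have hl' : G (X l) ≠ 0 := by simpa using hl
      have e : ∀ a, (((α a : F) - if a = j then 1 else 0) + if a = i then 1 else 0) =
          if a = l then -1 else 0 := by
        intro a
        have := V_weight h1 a l
        rw [h2, Derivation.smul_apply] at this
        apply smul_left_injective F hl'
        simp only
        rw [this]
        split_ifs <;> simp
      have e' : ∀ a, (((α a : ℤ) - if a = j then 1 else 0) + if a = i then 1 else 0) =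
          if a = l then -1 else 0 := by
        intro a
        have := e a
        apply Int.cast_injective (α := F)
        push_cast
        exact this
      have e1 := e' l
      have e2 := e' i
      grind
    rw [sub_eq_zero] at h3
    rw [← h, h3]

theorem main : ∃ φ : P F ≃ₐ[F] P F, ∀ (d : Dr F) (f : P F), θ d f = φ (d (φ.symm f)) := by
  choose y hy hy' using H.lemC
  let ψ : P F →ₐ[F] P F := aeval y
  have h1 : ∀ (p : P F) (E : Dr F), W E → θ (p • E) = ψ p • θ E := by
    intro p
    induction p using MvPolynomial.induction_on with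
    | C a =>
      intro E hE
      rw [csmul_eq, H.smul _ _, ← csmul_eq]
      simp [ψ]
    | add p q hp hq =>
      intro E hE
      rw [add_smul, H.add _ _, hp E hE, hq E hE, map_add, add_smul]
    | mul_X p i hp =>
      intro E hE
      rw [mul_smul, hp _ (W_smul _ hE), H.lemD i (y i) (hy i) (hy' i) E hE, map_mul, mul_smul]
      simp [ψ]
  have h2 : ∀ (k : ℕ) (p : P F), θ (pd k) (ψ p) = ψ (pd k p) := by
    intro k p
    induction p using MvPolynomial.induction_on with
    | C a => simp [ψ]
    | add p q hp hq => simp only [map_add, hp, hq]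
    | mul_X p i hp =>
      have : ψ (X i) = y i := by simp [ψ]
      simp only [map_mul, Derivation.leibniz, smul_eq_mul, map_add, hp, this, hy, pd_X]
      split_ifs <;> simp
  have h3 : ∀ d : Dr F, W d → ∀ p, θ d (ψ p) = ψ (d p) := by
    refine W_ind' _ ?_ ?_ ?_
    · intro p; simp [H.zero]
    · intro d e hd he e1 e2 p
      rw [H.add _ _, Derivation.add_apply, Derivation.add_apply, e1, e2, map_add]
    · intro q j p
      rw [h1 _ _ (W_pd j), Derivation.smul_apply, Derivation.smul_apply, h2, smul_eq_mul,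
        smul_eq_mul, map_mul]
  have hinj : Function.Injective ψ := by
    rw [injective_iff_map_eq_zero]
    intro p hp
    have := h1 p _ (W_pd 0)
    rw [hp, zero_smul, ← H.zero] at this
    have h4 := H.inj _ _ this
    have h5 := congrArg (fun e : Dr F => e (X 0)) h4
    simpa using h5
  have hsurj : Function.Surjective ψ := by
    intro f
    obtain ⟨E, h⟩ := H.surj (f • θ (pd 0))
    have hE := H.finW h
    refine ⟨E (X 0), ?_⟩
    rw [← h3 E hE, h, Derivation.smul_apply, h2]
    simp
  have h5 : ∀ (i k : ℕ) (d G : Dr F) (r : P F), ψ r = θ d (y i) →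
      θ G = y i • θ ⁅d, (pd k : Dr F)⁆ →
      G + r • pd k = (X i : P F) • ⁅d, (pd k : Dr F)⁆ + d (X i) • pd k := by
    intro i k d G r hr hG
    apply H.inj
    have e : ψ (X i) = y i := by simp [ψ]
    rw [H.add, hG, h1 _ _ (W_pd k), hr, add_comm (X i • _), ← br_smul, H.br d (X i • pd k),
      h1 _ _ (W_pd k), br_smul, e, ← H.br, add_comm]
  have h6 : ∀ (i : ℕ) (E : Dr F), θ ((X i : P F) • E) = y i • θ E := by
    intro i E
    obtain ⟨G, hG⟩ := H.surj (y i • θ E)
    rw [← hG]
    congr 1
    apply derivation_ext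
    intro l
    obtain ⟨d, rfl⟩ := br_surj (l + 1) E
    obtain ⟨r, hr⟩ := hsurj (θ d (y i))
    have := congrArg (fun e : Dr F => e (X l)) (h5 i (l + 1) d G r hr hG)
    simpa [pd_X] using this.symm
  have h7 : ∀ (d : Dr F) (i : ℕ), θ d (y i) = ψ (d (X i)) := by
    intro d i
    obtain ⟨r, hr⟩ := hsurj (θ d (y i))
    have := h5 i 0 d _ r hr (h6 i _)
    rw [add_right_inj] at this
    have h8 := congrArg (fun e : Dr F => e (X 0)) this
    rw [← hr]
    congr 1
    simpa using h8
  have h8 : ∀ (d : Dr F) (p : P F), θ d (ψ p) = ψ (d p) := by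
    intro d p
    induction p using MvPolynomial.induction_on with
    | C a => simp [ψ]
    | add p q hp hq => simp only [map_add, hp, hq]
    | mul_X p i hp =>
      have : ψ (X i) = y i := by simp [ψ]
      simp only [map_mul, Derivation.leibniz, smul_eq_mul, map_add, hp, this, h7]
  let φ := AlgEquiv.ofBijective ψ ⟨hinj, hsurj⟩
  have hφ : ∀ p, φ p = ψ p := fun p => rfl
  refine ⟨φ, fun d f => ?_⟩
  rw [hφ, ← h8 d, ← hφ, AlgEquiv.apply_symm_apply]

end Bu

end Pool.Agent.H.MP_c978f4_al
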